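import Pool.Agent.Helper481.Sq

set_option autoImplicit false

/-!
# Primes between the squares of consecutive primes, for almost all primes, in all classes to all moduli

Let `A` be fixed and let `N` be large. For all but at most `N / (log N) ^ A` of the primes `p ≤ N` the following holds, where `p'` is the
next prime.
(1) There are at least four primes between `p ^ 2` and `p' ^ 2` (Brocard's conjecture), and their number is
`∑_{p ^ 2 < j ≤ p' ^ 2} 1 / log j` up to an error of at most `(p' - p) p / (log N) ^ A`; the sum has the order `(p' - p) p / log p`.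
(2) The primes between `p ^ 2` and `p' ^ 2` are equidistributed in the reduced residue classes in mean square over ALL moduli
`q ≤ Q = N exp (- B (log log N) ^ 2)`, with any saving of a power of the logarithm, the interval being cut off in every class at the
most unfavourable place.

Proof. The interval between `p ^ 2` and `p' ^ 2` is cut at the squares `m ^ 2`, `p ≤ m < p'`. Almost all `m` are good
(`Pool.Agent.Helper481.Sq.squares`, from `Pool.Agent.helper24_UT.Ch.t_R28`: Mikawa's method and the large sieve), and a bad `m` spoils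
at most one pair of consecutive primes, whatever the gaps between the primes are.
-/

namespace Pool.Agent.Results.MP_739ba1_nt.AlmostAllAllModuli

open Finset Pool.Agent.Helper481

/-- the least prime greater than `p` -/
noncomputable def next (p : ℕ) : ℕ := sInf {q : ℕ | q.Prime ∧ p < q}

/-- the number of the primes `q` with `p ^ 2 < q < p' ^ 2`, where `p'` is the next prime after `p` -/
noncomputable def P (p : ℕ) : ℕ := ((Ioo (p ^ 2) (next p ^ 2)).filter Nat.Prime).card

/-- the number of the primes `s ≡ r (mod q)` with `u < s ≤ u + y` (for `r < q`) -/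
def count (q r u y : ℕ) : ℕ := ((Ioc u (u + y)).filter (fun s => s.Prime ∧ s % q = r)).card

/-- `∑_{u < j ≤ u + y} 1 / log j` -/
noncomputable def logSum (u y : ℕ) : ℝ := ∑ j ∈ Ioc u (u + y), 1 / Real.log (j : ℝ)

/-- For all `Q ≤ N exp (- B (log log N) ^ 2)` and all choices of the lengths `y q r ≤ p' ^ 2 - p ^ 2` the sum, over all `q ≤ Q` and all
reduced residues `r` modulo `q`, of the squares of `count q r (p ^ 2) y - logSum (p ^ 2) y / φ(q)`, `y = y q r`, is at most
`((p' - p) N) ^ 2 / (log N) ^ A`. -/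
def Classes (A B N p : ℕ) : Prop := ∀ Q : ℕ, (Q : ℝ) ≤ N * Real.exp (-(B * Real.log (Real.log N) ^ 2)) →
  ∀ y : ℕ → ℕ → ℕ, (∀ q r, p ^ 2 + y q r ≤ next p ^ 2) →
    ∑ q ∈ Icc 1 Q, ∑ r ∈ (range q).filter (fun r => r.Coprime q),
      ((count q r (p ^ 2) (y q r) : ℝ) - logSum (p ^ 2) (y q r) / Nat.totient q) ^ 2 ≤
        (((next p : ℝ) - p) * N) ^ 2 / (Real.log N) ^ A

/-- the assertions for one prime `p` -/
def Holds (A B N p : ℕ) : Prop :=
  4 ≤ P p ∧
  |(P p : ℝ) - logSum (p ^ 2) (next p ^ 2 - p ^ 2)| ≤ ((next p : ℝ) - p) * p / (Real.log N) ^ A ∧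
  Classes A B N p

lemma next_spec (p : ℕ) (hp : 0 < p) : (next p).Prime ∧ p < next p ∧ next p ≤ 2 * p := by
  obtain ⟨q, h1, h2, h3⟩ := Nat.exists_prime_lt_and_le_two_mul p (by omega)
  have h4 : (next p).Prime ∧ p < next p := Nat.sInf_mem (s := {q : ℕ | q.Prime ∧ p < q}) ⟨q, h1, h2⟩
  have h5 : next p ≤ q := Nat.sInf_le ⟨h1, h2⟩
  exact ⟨h4.1, h4.2, h5.trans h3⟩

lemma next_le {p q : ℕ} (hq : q.Prime) (h : p < q) : next p ≤ q := Nat.sInf_le ⟨hq, h⟩

lemma P_eq {p : ℕ} (hp : 0 < p) : P p = Thin.count 1 0 (p ^ 2) (next p ^ 2 - p ^ 2) := by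
  have h1 := next_spec p hp
  have h2 : p ^ 2 ≤ next p ^ 2 := Nat.pow_le_pow_left h1.2.1.le 2
  unfold P Thin.count
  rw [show p ^ 2 + (next p ^ 2 - p ^ 2) = next p ^ 2 by omega]
  congr 1
  ext s
  simp only [mem_filter, mem_Ioo, mem_Ioc]
  constructor
  · rintro ⟨⟨h3, h4⟩, h5⟩
    exact ⟨⟨h3, h4.le⟩, h5, Nat.mod_one _⟩
  · rintro ⟨⟨h3, h4⟩, h5, -⟩
    refine ⟨⟨h3, lt_of_le_of_ne h4 ?_⟩, h5⟩
    rintro rfl
    exact Nat.Prime.not_prime_pow (le_refl 2) h5

/-- lower bound of the expected number -/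
lemma logSum_lower {u v : ℕ} (hu : 2 ≤ u) (huv : u ≤ v) :
    ((v : ℝ) - u) * u / Real.log v ≤ Thin.logSum (u ^ 2) (v ^ 2 - u ^ 2) := by
  have hu' : (2 : ℝ) ≤ u := by exact_mod_cast hu
  have huv' : (u : ℝ) ≤ v := by exact_mod_cast huv
  have h2 : u ^ 2 ≤ v ^ 2 := Nat.pow_le_pow_left huv 2
  have hlogv : 0 < Real.log v := Real.log_pos (by linarith)
  unfold Thin.logSum
  rw [show u ^ 2 + (v ^ 2 - u ^ 2) = v ^ 2 by omega]
  have hcard : ((Ioc (u ^ 2) (v ^ 2)).card : ℝ) = ((v : ℝ) - u) * (v + u) := by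
    rw [Nat.card_Ioc, Nat.cast_sub h2]
    push_cast
    ring
  calc ((v : ℝ) - u) * u / Real.log v ≤ ((v : ℝ) - u) * (v + u) / (2 * Real.log v) := by
        rw [div_le_div_iff₀ hlogv (by positivity)]
        nlinarith [mul_nonneg (sub_nonneg.2 huv') hlogv.le, mul_nonneg (mul_nonneg (sub_nonneg.2 huv') hlogv.le)
          (sub_nonneg.2 huv')]
    _ = ∑ _j ∈ Ioc (u ^ 2) (v ^ 2), 1 / (2 * Real.log v) := by
        rw [sum_const, nsmul_eq_mul, hcard, mul_one_div]
    _ ≤ _ := by
        apply sum_le_sum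
        intro j hj
        rw [mem_Ioc] at hj
        have h3 : ((u ^ 2 : ℕ) : ℝ) < j := by exact_mod_cast hj.1
        have h4 : (j : ℝ) ≤ ((v ^ 2 : ℕ) : ℝ) := by exact_mod_cast hj.2
        push_cast at h3 h4
        have h5 : (1 : ℝ) < j := by nlinarith
        apply one_div_le_one_div_of_le (Real.log_pos h5)
        calc Real.log (j : ℝ) ≤ Real.log ((v : ℝ) ^ 2) := Real.log_le_log (by linarith) h4
          _ = 2 * Real.log v := by rw [Real.log_pow]; norm_num

/-- the conditions for `N` -/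
lemma large (A B : ℕ) : ∃ N₀ : ℕ, ∀ N : ℕ, N₀ ≤ N →
    64 ≤ Real.log N ∧ (Real.log N) ^ A ≤ N ∧ 1 ≤ N * Real.exp (-(((4 * B : ℕ) : ℝ) * Real.log (Real.log N) ^ 2)) ∧
      N * Real.exp (-(((4 * B : ℕ) : ℝ) * Real.log (Real.log N) ^ 2)) ≤
        ((8 * (2 * N) : ℕ) : ℝ) * Real.exp (-(B * Real.log (Real.log ((4 * (2 * N) ^ 2 : ℕ) : ℝ)) ^ 2)) := by
  have hlog : Filter.Tendsto (fun N : ℕ => Real.log (N : ℝ)) Filter.atTop Filter.atTop :=
    Real.tendsto_log_atTop.comp tendsto_natCast_atTop_atTop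
  have hcast := tendsto_natCast_atTop_atTop (R := ℝ)
  have e1 : ∀ᶠ N : ℕ in Filter.atTop, 64 ≤ Real.log N := hlog.eventually_ge_atTop _
  have e2 : ∀ᶠ x : ℝ in Filter.atTop, ‖Real.log x ^ A‖ ≤ 1 * ‖x‖ :=
    (Real.isLittleO_pow_log_id_atTop (n := A)).bound (by positivity)
  have e4 : ∀ᶠ x : ℝ in Filter.atTop, ‖Real.log x ^ 2‖ ≤ 1 / (4 * (B + 1) : ℝ) * ‖x‖ :=
    (Real.isLittleO_pow_log_id_atTop (n := 2)).bound (by positivity)
  have e2' := hcast.eventually e2
  have e4' := hlog.eventually e4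
  obtain ⟨N₁, hN₁⟩ := Filter.eventually_atTop.1 (e1.and (e2'.and e4'))
  refine ⟨N₁, fun N hN => ?_⟩
  obtain ⟨h1, h3, h4⟩ := hN₁ N hN
  have hX0 : (0 : ℝ) < N := by
    rcases Nat.eq_zero_or_pos N with h | h
    · subst h
      norm_num at h1
    · exact_mod_cast h
  rw [Real.norm_eq_abs, Real.norm_eq_abs, abs_of_nonneg (by positivity), abs_of_nonneg (by positivity)] at h3
  rw [Real.norm_eq_abs, Real.norm_eq_abs, abs_of_nonneg (by positivity), abs_of_nonneg (by linarith)] at h4
  have hB : (0 : ℝ) ≤ B := Nat.cast_nonneg B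
  have h5 : 4 * (B + 1) * Real.log (Real.log N) ^ 2 ≤ Real.log N := by
    rw [one_div, inv_mul_eq_div, le_div_iff₀ (by positivity)] at h4
    linarith
  refine ⟨h1, by linarith, ?_, ?_⟩
  · calc (1 : ℝ) = N * Real.exp (-Real.log N) := by rw [Real.exp_neg, Real.exp_log hX0, mul_inv_cancel₀ hX0.ne']
      _ ≤ _ := by
        apply mul_le_mul_of_nonneg_left _ hX0.le
        apply Real.exp_le_exp.2
        push_cast
        nlinarith [sq_nonneg (Real.log (Real.log N))]
  · have hXr : ((4 * (2 * N) ^ 2 : ℕ) : ℝ) = 16 * (N : ℝ) ^ 2 := by push_cast; ring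
    rw [hXr]
    have e : Real.log (16 * (N : ℝ) ^ 2) = 4 * Real.log 2 + 2 * Real.log N := by
      rw [Real.log_mul (by norm_num) (by positivity), Real.log_pow, show (16 : ℝ) = 2 ^ 4 by norm_num, Real.log_pow]
      push_cast
      ring
    have h6 : Real.log 2 ≤ 1 := by linarith [Real.log_two_lt_d9]
    have h6' : 0 < Real.log 2 := Real.log_pos (by norm_num)
    have h7 : Real.log (16 * (N : ℝ) ^ 2) ≤ Real.log N ^ 2 := by
      rw [e]
      nlinarith
    have h8 : 1 ≤ Real.log (16 * (N : ℝ) ^ 2) := by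
      rw [e]
      linarith
    have h9 : Real.log (Real.log (16 * (N : ℝ) ^ 2)) ≤ 2 * Real.log (Real.log N) := by
      calc Real.log (Real.log (16 * (N : ℝ) ^ 2)) ≤ Real.log (Real.log N ^ 2) := Real.log_le_log (by linarith) h7
        _ = _ := by rw [Real.log_pow]; push_cast; ring
    have h10 : 0 ≤ Real.log (Real.log (16 * (N : ℝ) ^ 2)) := Real.log_nonneg h8
    have h11 : Real.log (Real.log (16 * (N : ℝ) ^ 2)) ^ 2 ≤ 4 * Real.log (Real.log N) ^ 2 := by
      calc _ ≤ (2 * Real.log (Real.log N)) ^ 2 := pow_le_pow_left₀ h10 h9 2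
        _ = _ := by ring
    have h12 : Real.exp (-(((4 * B : ℕ) : ℝ) * Real.log (Real.log N) ^ 2)) ≤
        Real.exp (-(B * Real.log (Real.log (16 * (N : ℝ) ^ 2)) ^ 2)) := by
      apply Real.exp_le_exp.2
      push_cast
      nlinarith
    calc (N : ℝ) * Real.exp (-(((4 * B : ℕ) : ℝ) * Real.log (Real.log N) ^ 2)) ≤
          N * Real.exp (-(B * Real.log (Real.log (16 * (N : ℝ) ^ 2)) ^ 2)) := mul_le_mul_of_nonneg_left h12 hX0.le
      _ ≤ _ := by
        apply mul_le_mul_of_nonneg_right _ (Real.exp_pos _).le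
        push_cast
        linarith

open Classical in
/-- **Primes between the squares of consecutive primes, for almost all primes, in all classes to all moduli.** -/
theorem result (A : ℕ) : ∃ B N₀ : ℕ, ∀ N : ℕ, N₀ ≤ N →
    (((Icc 1 N).filter (fun p => p.Prime ∧ ¬ Holds A B N p)).card : ℝ) ≤ N / (Real.log N) ^ A := by
  obtain ⟨B, N₁, hmain⟩ := Sq.squares (4 * A + 7)
  obtain ⟨N₂, hlarge⟩ := large (2 * A + 8) B
  refine ⟨4 * B, max (max N₁ N₂) 8, fun N hN => ?_⟩
  have hN1 : N₁ ≤ N := (le_max_left _ _).trans ((le_max_left _ _).trans hN)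
  obtain ⟨hL64, hLN, hQ1, hQ2⟩ := hlarge N ((le_max_right _ _).trans ((le_max_left _ _).trans hN))
  have hN8 : 8 ≤ N := (le_max_right _ _).trans hN
  have hN0 : (0 : ℝ) < N := by exact_mod_cast (by omega : 0 < N)
  have hexc := hmain (2 * N) (by omega)
  set L := Real.log N with hLdef
  have hL0 : 0 < L := by linarith
  have hone : ∀ n : ℕ, 1 ≤ L ^ n := fun n => one_le_pow₀ (by linarith)
  have hpowle : ∀ {a b : ℕ}, a ≤ b → L ^ a ≤ L ^ b := fun h => pow_le_pow_right₀ (by linarith) h
  have hlog2 : Real.log 2 ≤ 1 := by linarith [Real.log_two_lt_d9]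
  have hlog2' : 0 < Real.log 2 := Real.log_pos (by norm_num)
  set X : ℕ := 4 * (2 * N) ^ 2 with hX
  have hXr : (X : ℝ) = 16 * (N : ℝ) ^ 2 := by rw [hX]; push_cast; ring
  set LX := Real.log X with hLX
  have e : LX = 4 * Real.log 2 + 2 * L := by
    rw [hLX, hXr, Real.log_mul (by norm_num) (by positivity), Real.log_pow, show (16 : ℝ) = 2 ^ 4 by norm_num, Real.log_pow]
    push_cast
    ring
  have hLLX : L ≤ LX := by linarith
  have hpowX : ∀ n : ℕ, L ^ n ≤ LX ^ n := fun n => pow_le_pow_left₀ hL0.le hLLX n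
  have hlog2N : L ≤ Real.log ((2 * N : ℕ) : ℝ) := by
    apply Real.log_le_log hN0
    push_cast
    linarith
  have hlog2N' : Real.log ((2 * N : ℕ) : ℝ) ≤ 2 * L := by
    push_cast
    rw [Real.log_mul (by norm_num) (by positivity)]
    linarith
  set T := (N : ℝ) / L ^ (A + 1) with hT
  have hT0 : 0 < T := by positivity
  have hgood : ∀ p : ℕ, p.Prime → p ≤ N → T < p →
      (∀ m ∈ Ico p (next p), Pool.Agent.helper24_UT.Good28 (4 * A + 7 + 1) B X (8 * (2 * N)) (m ^ 2)) → Holds A (4 * B) N p := by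
    intro p hp hpN hTp hg
    have hpN' : (p : ℝ) ≤ N := by exact_mod_cast hpN
    have hp0 : 0 < p := hp.pos
    obtain ⟨hn1, hn2, hn3⟩ := next_spec p hp0
    have hnext : next p ≤ 2 * N := hn3.trans (by omega)
    have hgap : (1 : ℝ) ≤ (next p : ℝ) - p := by
      have : ((p + 1 : ℕ) : ℝ) ≤ next p := by exact_mod_cast hn2
      push_cast at this
      linarith
    have hpL : (N : ℝ) ≤ p * L ^ (A + 1) := by
      have := hTp.le
      rwa [hT, div_le_iff₀ (by positivity)] at this
    have hpbig : L ^ (A + 7) ≤ p := by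
      have h1 : L ^ (A + 7) * L ^ (A + 1) ≤ p * L ^ (A + 1) := by
        rw [← pow_add]
        calc L ^ (A + 7 + (A + 1)) = L ^ (2 * A + 8) := by ring_nf
          _ ≤ N := hLN
          _ ≤ _ := hpL
      exact le_of_mul_le_mul_right h1 (by positivity)
    have hp16 : 16 * L ≤ p := by
      calc 16 * L ≤ L * L := mul_le_mul_of_nonneg_right (by linarith) hL0.le
        _ = L ^ 2 := by ring
        _ ≤ L ^ (A + 7) := hpowle (by omega)
        _ ≤ p := hpbig
    -- the number of primes
    have hsq : p ^ 2 ≤ next p ^ 2 := Nat.pow_le_pow_left hn2.le 2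
    have hbet := Sq.between (A := 4 * A + 7 + 1) (B := B) (X := X) (K := 8 * (2 * N)) hn2.le (by omega) hg
    have hcount : |(P p : ℝ) - Thin.logSum (p ^ 2) (next p ^ 2 - p ^ 2)| ≤ ((next p : ℝ) - p) * p / L ^ (A + 2) := by
      have h5 := hbet 1 (by rw [Nat.cast_one]; exact hQ1.trans hQ2) (fun _ _ => next p ^ 2 - p ^ 2) (fun _ _ => by omega)
      have hres : (range 1).filter (fun r : ℕ => r.Coprime 1) = {0} := by
        ext r
        rw [mem_filter, mem_range, mem_singleton]
        constructor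
        · rintro ⟨h6, _⟩
          omega
        · rintro rfl
          exact ⟨by omega, Nat.coprime_one_right 0⟩
      rw [Icc_self, sum_singleton, hres, sum_singleton] at h5
      unfold Sq.D at h5
      rw [Nat.totient_one, Nat.cast_one, div_one] at h5
      rw [P_eq hp0]
      have h6 : |(Thin.count 1 0 (p ^ 2) (next p ^ 2 - p ^ 2) : ℝ) - Thin.logSum (p ^ 2) (next p ^ 2 - p ^ 2)| ≤
          (((next p : ℝ) - p) * ((8 * (2 * N) : ℕ) : ℝ)) / LX ^ (2 * A + 4) := by
        apply abs_le_of_sq_le_sq _ (by positivity)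
        rw [div_pow, ← pow_mul, show (2 * A + 4) * 2 = 4 * A + 7 + 1 by ring]
        exact h5
      refine h6.trans ?_
      push_cast
      calc ((next p : ℝ) - p) * (8 * (2 * N)) / LX ^ (2 * A + 4) ≤ ((next p : ℝ) - p) * (8 * (2 * N)) / L ^ (2 * A + 4) := by
            apply div_le_div_of_nonneg_left (by positivity) (by positivity) (hpowX _)
        _ ≤ ((next p : ℝ) - p) * (8 * (2 * (p * L ^ (A + 1)))) / L ^ (2 * A + 4) := by
            apply div_le_div_of_nonneg_right _ (by positivity)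
            apply mul_le_mul_of_nonneg_left _ (by linarith)
            linarith
        _ = 16 / L * (((next p : ℝ) - p) * p / L ^ (A + 2)) := by
            rw [show 2 * A + 4 = (A + 1) + (A + 2) + 1 by ring, pow_add L (A + 1 + (A + 2)) 1, pow_add L (A + 1) (A + 2)]
            field_simp
            ring
        _ ≤ 1 * (((next p : ℝ) - p) * p / L ^ (A + 2)) := by
            apply mul_le_mul_of_nonneg_right _ (by positivity)
            rw [div_le_one hL0]
            linarith
        _ = _ := one_mul _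
    refine ⟨?_, ?_, fun Q hQ y hy => ?_⟩
    · -- at least four
      have h1 := logSum_lower hp.two_le hn2.le
      have h2 := (abs_le.1 hcount).1
      have hlogn : Real.log (next p) ≤ 2 * L := by
        have h3 : Real.log (next p) ≤ Real.log ((2 * N : ℕ) : ℝ) := by
          apply Real.log_le_log
          · exact_mod_cast hn1.pos
          · exact_mod_cast hnext
        linarith
      have hlogn0 : 0 < Real.log (next p) := Real.log_pos (by exact_mod_cast hn1.one_lt)
      have h3 : ((next p : ℝ) - p) * p / (2 * L) ≤ ((next p : ℝ) - p) * p / Real.log (next p) :=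
        div_le_div_of_nonneg_left (by positivity) hlogn0 hlogn
      have h4 : ((next p : ℝ) - p) * p / L ^ (A + 2) ≤ ((next p : ℝ) - p) * p / (4 * L) := by
        apply div_le_div_of_nonneg_left (by positivity) (by positivity)
        calc 4 * L ≤ L * L := mul_le_mul_of_nonneg_right (by linarith) hL0.le
          _ = L ^ 2 := by ring
          _ ≤ L ^ (A + 2) := hpowle (by omega)
      have h5 : ((next p : ℝ) - p) * p / (2 * L) - ((next p : ℝ) - p) * p / (4 * L) = ((next p : ℝ) - p) * p / (4 * L) := by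
        field_simp
        ring
      have h6 : 4 ≤ ((next p : ℝ) - p) * p / (4 * L) := by
        rw [le_div_iff₀ (by positivity)]
        nlinarith
      have h7 : (4 : ℝ) ≤ P p := by linarith
      exact_mod_cast h7
    · refine hcount.trans ?_
      apply div_le_div_of_nonneg_left (by positivity) (by positivity)
      exact hpowle (by omega)
    · refine (hbet Q (hQ.trans hQ2) y hy).trans ?_
      push_cast
      calc (((next p : ℝ) - p) * (8 * (2 * N))) ^ 2 / LX ^ (4 * A + 7 + 1) ≤
            (((next p : ℝ) - p) * (8 * (2 * N))) ^ 2 / (L ^ A * 256) := by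
            apply div_le_div_of_nonneg_left (by positivity) (by positivity)
            calc L ^ A * 256 ≤ L ^ A * (L * L) := by
                  apply mul_le_mul_of_nonneg_left _ (by positivity)
                  nlinarith
              _ = L ^ (A + 2) := by ring
              _ ≤ L ^ (4 * A + 7 + 1) := hpowle (by omega)
              _ ≤ _ := hpowX _
        _ = (((next p : ℝ) - p) * N) ^ 2 / L ^ A := by
            field_simp
            ring
  -- collect: a bad `m` spoils at most one prime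
  set E := (Icc 1 (2 * N)).filter (fun m => ¬ Pool.Agent.helper24_UT.Good28 (4 * A + 7 + 1) B X (8 * (2 * N)) (m ^ 2)) with hE
  set F := (Icc 1 N).filter (fun p => p.Prime ∧ ¬ Holds A (4 * B) N p) with hF
  have hF1 : ∀ p ∈ F.filter (fun p : ℕ => T < (p : ℝ)), ∃ m, m ∈ E ∧ p ≤ m ∧ m < next p := by
    intro p hp
    rw [mem_filter, hF, mem_filter, mem_Icc] at hp
    obtain ⟨⟨⟨h1, h2⟩, h3, h4⟩, h5⟩ := hp
    by_contra hcon
    push Not at hcon
    apply h4
    apply hgood p h3 h2 h5
    intro m hm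
    rw [mem_Ico] at hm
    by_contra h6
    have h7 := (next_spec p h3.pos).2.2
    have h8 : m ∈ E := by
      rw [hE, mem_filter, mem_Icc]
      exact ⟨⟨by omega, by omega⟩, h6⟩
    exact absurd hm.2 (not_lt.2 (hcon m h8 hm.1))
  choose! g hg using hF1
  have hcardF1 : (F.filter (fun p : ℕ => T < (p : ℝ))).card ≤ E.card := by
    apply card_le_card_of_injOn g (fun p hp => (hg p hp).1)
    intro p hp s hs hps
    rw [mem_coe] at hp hs
    by_contra hne
    wlog hlt : p < s generalizing p s
    · exact this hs hp hps.symm (Ne.symm hne) (by omega)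
    have h1 := hg p hp
    have h2 := hg s hs
    have h3 : s.Prime := by
      rw [mem_filter, hF, mem_filter] at hs
      exact hs.1.2.1
    have h4 := next_le h3 hlt
    omega
  have hcardF2 : ((F.filter (fun p : ℕ => ¬ T < (p : ℝ))).card : ℝ) ≤ (1 / 2) * (N / L ^ A) := by
    have h5 : F.filter (fun p : ℕ => ¬ T < (p : ℝ)) ⊆ Icc 1 ⌊T⌋₊ := by
      intro n hn
      rw [mem_filter, hF, mem_filter, mem_Icc] at hn
      rw [mem_Icc]
      exact ⟨hn.1.1.1, Nat.le_floor (not_lt.1 hn.2)⟩
    have h6 := card_le_card h5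
    rw [Nat.card_Icc, Nat.add_sub_cancel] at h6
    refine (Nat.cast_le.2 h6).trans ((Nat.floor_le hT0.le).trans ?_)
    rw [hT, pow_succ]
    calc (N : ℝ) / (L ^ A * L) ≤ N / (L ^ A * 2) := by
          apply div_le_div_of_nonneg_left hN0.le (by positivity)
          exact mul_le_mul_of_nonneg_left (by linarith) (by positivity)
      _ = _ := by ring
  have hcardE : (E.card : ℝ) ≤ (1 / 2) * (N / L ^ A) := by
    refine hexc.trans ?_
    push_cast
    have h1 : L ^ (4 * A + 7) ≤ Real.log (2 * (N : ℝ)) ^ (4 * A + 7) := by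
      push_cast at hlog2N
      exact pow_le_pow_left₀ hL0.le hlog2N _
    calc (2 * (N : ℝ)) / Real.log (2 * (N : ℝ)) ^ (4 * A + 7) ≤ 2 * N / (L ^ A * 4) := by
          apply div_le_div_of_nonneg_left (by positivity) (by positivity)
          calc L ^ A * 4 ≤ L ^ A * L := mul_le_mul_of_nonneg_left (by linarith) (by positivity)
            _ = L ^ (A + 1) := by ring
            _ ≤ L ^ (4 * A + 7) := hpowle (by omega)
            _ ≤ _ := h1
      _ = _ := by
          field_simp
          ring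
  have hsplit : F.card = (F.filter (fun p : ℕ => T < (p : ℝ))).card + (F.filter (fun p : ℕ => ¬ T < (p : ℝ))).card :=
    (card_filter_add_card_filter_not _).symm
  have hcardF1' : ((F.filter (fun p : ℕ => T < (p : ℝ))).card : ℝ) ≤ E.card := by exact_mod_cast hcardF1
  rw [hsplit]
  push_cast
  linarith

end Pool.Agent.Results.MP_739ba1_nt.AlmostAllAllModuli
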